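import Pool.Agent.KS6_53.St.S6

set_option autoImplicit false

/-!
# Stöhr's question: the optimal constant

For every `h ≥ 2` the supremum of the constants `c` such that some sequence `A` of zero asymptotic
density (`0 ∈ A`, `A ≠ {0, 1} ∪ primes`) has `σ (A + B) ≥ c` for all bases `B` of order `h` is `1`,
and it is not attained.  The sequences `A` with `σ (A + B) ≥ 1 - ε` exist even for all `B ∋ 0` whose
counting function is at least a given `g → ∞`.
-/

namespace Pool.Agent.Results.MP_b92640_nt.OptimalConstant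

open Finset Filter Topology
open scoped Pointwise

/-- `B` contains `0` and every nonnegative integer is a sum of `h` elements of `B`. -/
def IsBasis (h : ℕ) (B : Set ℕ) : Prop :=
  0 ∈ B ∧ ∀ n : ℕ, ∃ f : Fin h → ℕ, (∀ i, f i ∈ B) ∧ ∑ i, f i = n

open scoped Classical in
/-- the number of the elements of `A` in `[1, n]` -/
noncomputable def count (A : Set ℕ) (n : ℕ) : ℕ := ((Finset.Ioc 0 n).filter (· ∈ A)).card

/-- `A` has zero asymptotic density. -/
def ZeroDensity (A : Set ℕ) : Prop := Tendsto (fun n : ℕ => (count A n : ℝ) / n) atTop (𝓝 0)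

open scoped Classical in
/-- Mathlib's Schnirelmann density (with the classical decidability of membership) -/
noncomputable def sigma (A : Set ℕ) : ℝ := schnirelmannDensity A

/-- the constants `c` which some sequence `A ≠ {0, 1} ∪ primes` of zero asymptotic density guarantees
for all bases of order `h` -/
def Guaranteed (h : ℕ) : Set ℝ :=
  {c | ∃ A : Set ℕ, 0 ∈ A ∧ A ≠ {0, 1} ∪ {p | p.Prime} ∧ ZeroDensity A ∧
    ∀ B : Set ℕ, IsBasis h B → c ≤ sigma (A + B)}

/-- **Stöhr's question, with the optimal constant.** -/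
theorem result :
    -- the question itself
    (∃ A : Set ℕ, 0 ∈ A ∧ A ≠ {0, 1} ∪ {p | p.Prime} ∧ ZeroDensity A ∧
      ∀ B : Set ℕ, IsBasis 2 B → 0 < sigma (A + B)) ∧
    -- the optimal constant for all bases of order `h` is `1`, and it is not attained
    (∀ h : ℕ, 2 ≤ h → IsLUB (Guaranteed h) 1 ∧ 1 ∉ Guaranteed h) ∧
    -- the same for all `B` with a counting function which tends to infinity at least at a given rate
    (∀ g : ℕ → ℕ, Tendsto g atTop atTop → ∀ ε : ℝ, 0 < ε →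
      ∃ A : Set ℕ, 0 ∈ A ∧ A ≠ {0, 1} ∪ {p | p.Prime} ∧ ZeroDensity A ∧
        ∀ B : Set ℕ, 0 ∈ B → (∀ n, g n ≤ count B n) → 1 - ε ≤ sigma (A + B)) ∧
    -- every sequence of zero density has a basis of order two with an infinite set of exceptions
    (∀ A : Set ℕ, ZeroDensity A → ∃ B : Set ℕ, IsBasis 2 B ∧ ((A + B)ᶜ).Infinite) := by
  classical
  have hg : ∀ g : ℕ → ℕ, Tendsto g atTop atTop → ∀ ε : ℝ, 0 < ε →
      ∃ A : Set ℕ, 0 ∈ A ∧ A ≠ {0, 1} ∪ {p | p.Prime} ∧ ZeroDensity A ∧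
        ∀ B : Set ℕ, 0 ∈ B → (∀ n, g n ≤ count B n) → 1 - ε ≤ sigma (A + B) := by
    intro g hg ε hε
    exact KS6_53.St.exists_good g hg ε hε
  have hh : ∀ h : ℕ, 1 ≤ h → ∀ ε : ℝ, 0 < ε → 1 - ε ∈ Guaranteed h := by
    intro h hh ε hε
    obtain ⟨A, h1, h2, h3, h4⟩ := hg _ (KS6_53.St.gh_tendsto hh) ε hε
    exact ⟨A, h1, h2, h3, fun B hB => h4 B hB.1 fun n => KS6_53.St.gh_le hB n⟩
  have hbad : ∀ h : ℕ, 2 ≤ h → ∀ A : Set ℕ, ZeroDensity A →
      ∃ B : Set ℕ, IsBasis h B ∧ ((A + B)ᶜ).Infinite := by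
    intro h hh A hA
    obtain ⟨B, h1, h2, h3⟩ := KS6_53.St.exists_basis A hA
    exact ⟨B, KS6_53.St.isBasis_of_two hh h1 h2, h3⟩
  refine ⟨?_, fun h hh2 => ⟨⟨?_, ?_⟩, ?_⟩, hg, hbad 2 le_rfl⟩
  · obtain ⟨A, h1, h2, h3, h4⟩ := hh 2 (by norm_num) (1 / 2) (by norm_num)
    exact ⟨A, h1, h2, h3, fun B hB => lt_of_lt_of_le (by norm_num) (h4 B hB)⟩
  · rintro c ⟨A, h1, -, -, h4⟩
    refine (h4 Set.univ ⟨Set.mem_univ _, fun n => ⟨fun i => if i = ⟨0, by omega⟩ then n else 0,
      fun _ => Set.mem_univ _, ?_⟩⟩).trans schnirelmannDensity_le_one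
    simp
  · intro c hc
    refine le_of_forall_pos_le_add fun ε hε => ?_
    have := hc (hh h (by omega) ε hε)
    linarith
  · rintro ⟨A, -, -, h3, h4⟩
    obtain ⟨B, hB, hinf⟩ := hbad h hh2 A h3
    obtain ⟨n, hn1, hn2⟩ := hinf.exists_gt 0
    have h5 : sigma (A + B) = 1 := le_antisymm schnirelmannDensity_le_one (h4 B hB)
    unfold sigma at h5
    rw [schnirelmannDensity_eq_one_iff] at h5
    exact hn1 (h5 (by
      rw [Set.mem_compl_iff, Set.mem_singleton_iff]
      omega))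

end Pool.Agent.Results.MP_b92640_nt.OptimalConstant
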